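import Mathlib

set_option autoImplicit false

namespace Pool.Agent.Results.MP_8ea6c6_co.Disproof

/-- `k` lies in the numerical semigroup generated by `S`. -/
def InS (S : Finset ℕ) (k : ℕ) : Prop := k ∈ AddSubmonoid.closure (S : Set ℕ)

open Classical in
/-- The greedy procedure run through a list of generators: take the largest `q` with
`k - q s` in the semigroup, add `q` to the cost, continue with `k - q s`. -/
noncomputable def greedyAux (S : Finset ℕ) : List ℕ → ℕ → ℕ
  | [], _ => 0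
  | s :: l, k =>
    Nat.findGreatest (fun q => q * s ≤ k ∧ InS S (k - q * s)) k +
      greedyAux S l (k - Nat.findGreatest (fun q => q * s ≤ k ∧ InS S (k - q * s)) k * s)

/-- Cost of the greedy representation (generators taken in decreasing order). -/
noncomputable def GreedyCost (S : Finset ℕ) (k : ℕ) : ℕ := greedyAux S (S.sort (· ≥ ·)) k

/-- Least cost of a representation of `k`. -/
noncomputable def MinCost (S : Finset ℕ) (k : ℕ) : ℕ :=
  sInf {c | ∃ a : ℕ → ℕ, ∑ s ∈ S, a s * s = k ∧ ∑ s ∈ S, a s = c}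

/-- `S` is greedy. -/
def Greedy (S : Finset ℕ) : Prop := ∀ k, InS S k → GreedyCost S k = MinCost S k

theorem inS_iff (S : Finset ℕ) (E : List ℕ) (h0 : 0 ∉ E) (h1 : ∀ s ∈ S, s ∉ E)
    (h2 : ∀ a b, a ∉ E → b ∉ E → a + b ∉ E) (h4 : 4 ∈ S)
    (h3 : ∀ k < 16, k ∉ E → InS S k) (h5 : ∀ k, 12 ≤ k → k ∉ E) (k : ℕ) : InS S k ↔ k ∉ E := by
  constructor
  · intro h
    induction h using AddSubmonoid.closure_induction with
    | mem x hx => exact h1 x hx
    | zero => exact h0
    | add x y _ _ hx hy => exact h2 x y hx hy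
  · induction k using Nat.strong_induction_on with
    | _ k ih =>
      intro hk
      by_cases hlt : k < 16
      · exact h3 k hlt hk
      · have := ih (k - 4) (by omega) (h5 _ (by omega))
        rw [show k = (k - 4) + 4 by omega]
        exact AddSubmonoid.add_mem _ this (AddSubmonoid.subset_closure h4)

theorem comb (S : Finset ℕ) (h4 : 4 ∈ S) (h6 : 6 ∈ S) (h9 : 9 ∈ S) (x y z : ℕ) :
    InS S (x * 4 + y * 6 + z * 9) :=
  AddSubmonoid.add_mem _ (AddSubmonoid.add_mem _
    (nsmul_mem (AddSubmonoid.subset_closure h4) x) (nsmul_mem (AddSubmonoid.subset_closure h6) y))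
    (nsmul_mem (AddSubmonoid.subset_closure h9) z)

theorem in1 (k : ℕ) : InS {4, 6, 9} k ↔ k ∉ [1, 2, 3, 5, 7, 11] := by
  apply inS_iff _ _ (by simp) (by simp) (by simp; omega) (by simp) _ (by simp; omega)
  have c := comb {4, 6, 9} (by simp) (by simp) (by simp)
  intro k hk hE
  interval_cases k <;> first | exact absurd hE (by decide) | exact c 0 0 0 | exact c 1 0 0 | exact c 0 1 0 | exact c 2 0 0 | exact c 0 0 1 | exact c 1 1 0 | exact c 0 2 0 | exact c 1 0 1 | exact c 2 1 0 | exact c 0 1 1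

theorem in2 (k : ℕ) : InS (insert 11 {4, 6, 9}) k ↔ k ∉ [1, 2, 3, 5, 7] := by
  apply inS_iff _ _ (by simp) (by simp) (by simp; omega) (by simp) _ (by simp; omega)
  have c := comb (insert 11 {4, 6, 9}) (by simp) (by simp) (by simp)
  have d : InS (insert 11 {4, 6, 9}) 11 := AddSubmonoid.subset_closure (by simp)
  intro k hk hE
  interval_cases k <;> first | exact absurd hE (by decide) | exact d | exact c 0 0 0 | exact c 1 0 0 | exact c 0 1 0 | exact c 2 0 0 | exact c 0 0 1 | exact c 1 1 0 | exact c 0 2 0 | exact c 1 0 1 | exact c 2 1 0 | exact c 0 1 1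

theorem step (S : Finset ℕ) (s : ℕ) (l : List ℕ) (k q : ℕ) (hs : 0 < s) (h1 : q * s ≤ k)
    (h2 : InS S (k - q * s)) (h3 : ∀ q', q < q' → q' * s ≤ k → ¬ InS S (k - q' * s)) :
    greedyAux S (s :: l) k = q + greedyAux S l (k - q * s) := by
  classical
  have : Nat.findGreatest (fun q => q * s ≤ k ∧ InS S (k - q * s)) k = q := by
    rw [Nat.findGreatest_eq_iff]
    exact ⟨by nlinarith, fun _ => ⟨h1, h2⟩, fun n hn _ h => h3 n hn h.1 h.2⟩
  rw [greedyAux]
  convert rfl <;> exact this.symm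

theorem g1 (q x y : ℕ) (h : (x, y) ∈ [(0, 0), (1, 0), (0, 1), (2, 0), (1, 1), (0, 2), (2, 1), (1, 2), (2, 3)]) (hx : (x, y) ≠ (2, 3)) :
    greedyAux {4, 6, 9} [9, 6, 4] (q * 9 + (x * 4 + y * 6)) = q + (y + x) := by
  simp only [List.mem_cons, Prod.mk.injEq, List.not_mem_nil, or_false, ne_eq] at h hx
  rw [step _ 9 _ _ q (by norm_num) (by omega) (by rw [in1]; simp; omega)
    (by intro q' h1 h2; rw [in1]; simp; omega),
    step _ 6 _ _ y (by norm_num) (by omega) (by rw [in1]; simp; omega)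
    (by intro q' h1 h2; rw [in1]; simp; omega),
    step _ 4 _ _ x (by norm_num) (by omega) (by rw [in1]; simp)
    (by intro q' h1 h2; rw [in1]; simp; omega)]
  simp [greedyAux]

theorem g2 (q : ℕ) : greedyAux {4, 6, 9} [9, 6, 4] (q * 9 + 20) = q + 4 := by
  rw [step _ 9 _ _ q (by norm_num) (by omega) (by rw [in1]; simp)
    (by intro q' h1 h2; rw [in1]; simp; omega),
    step _ 6 _ _ 2 (by norm_num) (by omega) (by rw [in1]; simp)
    (by intro q' h1 h2; rw [in1]; simp; omega),
    step _ 4 _ _ 2 (by norm_num) (by omega) (by rw [in1]; simp)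
    (by intro q' h1 h2; rw [in1]; simp; omega)]
  simp [greedyAux]

theorem mc (k x y z : ℕ) (e : x * 4 + y * 6 + z * 9 = k)
    (h : ∀ a b c, a * 4 + b * 6 + c * 9 = k → x + y + z ≤ a + b + c) :
    MinCost {4, 6, 9} k = x + y + z := by
  have m : x + y + z ∈ {c | ∃ a : ℕ → ℕ, ∑ s ∈ ({4, 6, 9} : Finset ℕ), a s * s = k ∧
      ∑ s ∈ ({4, 6, 9} : Finset ℕ), a s = c} :=
    ⟨fun s => if s = 4 then x else if s = 6 then y else z, by simp; omega, by simp; omega⟩
  apply le_antisymm (Nat.sInf_le m)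
  apply le_csInf ⟨_, m⟩
  rintro c ⟨a, h1, rfl⟩
  simp at h1 ⊢
  have := h (a 4) (a 6) (a 9) (by omega)
  omega

theorem greedy1 : Greedy {4, 6, 9} := by
  intro k hk
  rw [in1] at hk
  simp at hk
  have hs : ({4, 6, 9} : Finset ℕ).sort (· ≥ ·) = [9, 6, 4] := by
    rw [show ({4, 6, 9} : Finset ℕ) = [9, 6, 4].toFinset by decide +kernel]
    exact (List.toFinset_sort _ (by decide)).2 (by decide)
  rw [GreedyCost, hs]
  have key : ∀ x y : ℕ, (x, y) ∈ [(0, 0), (1, 0), (0, 1), (2, 0), (1, 1), (0, 2), (2, 1), (1, 2), (2, 3)] →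
      (x, y) ≠ (2, 3) → ∀ q, k = q * 9 + (x * 4 + y * 6) →
      greedyAux {4, 6, 9} [9, 6, 4] k = MinCost {4, 6, 9} k := by
    intro x y h hx q e
    rw [mc k x y q (by omega), e, g1 q x y h hx]
    · ring
    · simp only [List.mem_cons, Prod.mk.injEq, List.not_mem_nil, or_false, ne_eq] at h hx
      intro a b c; omega
  have h9 : k % 9 < 9 := Nat.mod_lt _ (by norm_num)
  interval_cases hr : k % 9
  · exact key 0 0 (by simp) (by simp) (k / 9) (by omega)
  · exact key 1 1 (by simp) (by simp) (k / 9 - 1) (by omega)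
  · rw [mc k 2 2 (k / 9 - 2) (by omega) (by intro a b c; omega)]
    have := g2 (k / 9 - 2)
    rw [show (k / 9 - 2) * 9 + 20 = k by omega] at this
    omega
  · exact key 0 2 (by simp) (by simp) (k / 9 - 1) (by omega)
  · exact key 1 0 (by simp) (by simp) (k / 9) (by omega)
  · exact key 2 1 (by simp) (by simp) (k / 9 - 1) (by omega)
  · exact key 0 1 (by simp) (by simp) (k / 9) (by omega)
  · exact key 1 2 (by simp) (by simp) (k / 9 - 1) (by omega)
  · exact key 2 0 (by simp) (by simp) (k / 9) (by omega)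

theorem result :
    ¬ ∀ S : Finset ℕ, (∀ s ∈ S, 0 < s) → S.gcd id = 1 → 1 ∉ S →
      ∀ F : ℕ, FrobeniusNumber F (S : Set ℕ) → Greedy S → Greedy (insert F S) := by
  intro h
  have h1 := h {4, 6, 9} (by simp) (by decide +kernel) (by simp) 11 (by
    constructor
    · exact fun hh => by simpa using (in1 11).1 hh
    · intro k hk
      have := (in1 k).not.1 hk
      simp at this
      omega) greedy1 27 (by rw [in2]; simp)
  have hs : (insert 11 {4, 6, 9} : Finset ℕ).sort (· ≥ ·) = [11, 9, 6, 4] := by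
    rw [show (insert 11 {4, 6, 9} : Finset ℕ) = [11, 9, 6, 4].toFinset by decide +kernel]
    exact (List.toFinset_sort _ (by decide)).2 (by decide)
  rw [GreedyCost, hs,
    step _ 11 _ _ 1 (by norm_num) (by omega) (by rw [in2]; simp)
      (by intro q' h1 h2; rw [in2]; simp; omega),
    step _ 9 _ _ 0 (by norm_num) (by omega) (by rw [in2]; simp)
      (by intro q' h1 h2; rw [in2]; simp; omega),
    step _ 6 _ _ 2 (by norm_num) (by omega) (by rw [in2]; simp)
      (by intro q' h1 h2; rw [in2]; simp; omega),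
    step _ 4 _ _ 1 (by norm_num) (by omega) (by rw [in2]; simp)
      (by intro q' h1 h2; rw [in2]; simp; omega)] at h1
  have h2 : MinCost (insert 11 {4, 6, 9}) 27 ≤ 3 :=
    Nat.sInf_le ⟨fun s => if s = 9 then 3 else 0, by simp, by simp⟩
  simp [greedyAux] at h1
  omega

end Pool.Agent.Results.MP_8ea6c6_co.Disproof
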